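import Mathlib

set_option autoImplicit false

/-!
# CKM [LSum]: locally finite sums of convex functions of class `C^∞`
-/

namespace Pool.Agent.CKM

open Set Filter Topology

theorem lsum {E ι : Type} [NormedAddCommGroup E] [NormedSpace ℝ E] (u : ι → E → ℝ) (O : Set E)
    (hO : Convex ℝ O) (hu : ∀ i, ∀ f, 0 ≤ u i f) (hc : ∀ i, ConvexOn ℝ O (u i))
    (hs : ∀ i, ∀ f ∈ O, ContDiffAt ℝ ((⊤ : ℕ∞) : WithTop ℕ∞) (u i) f)
    (hfin : ∀ f ∈ O, ∃ I : Finset ι, ∀ᶠ g in 𝓝 f, ∀ i ∉ I, u i g = 0) :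
    ConvexOn ℝ O (fun f => ∑ᶠ i, u i f) ∧
    ContDiffOn ℝ ((⊤ : ℕ∞) : WithTop ℕ∞) (fun f => ∑ᶠ i, u i f) O ∧
    (∀ f ∈ O, ∀ i, u i f ≤ ∑ᶠ k, u k f) := by
  classical
  have hpt : ∀ f ∈ O, ∃ I : Finset ι, ∀ i ∉ I, u i f = 0 := by
    intro f hf
    obtain ⟨I, hI⟩ := hfin f hf
    exact ⟨I, hI.self_of_nhds⟩
  have hsum : ∀ (f : E) (I : Finset ι), (∀ i ∉ I, u i f = 0) →
      (∑ᶠ i, u i f) = ∑ i ∈ I, u i f := by
    intro f I h
    apply finsum_eq_sum_of_support_subset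
    intro i hi
    by_contra h1
    exact hi (h i h1)
  refine ⟨⟨hO, ?_⟩, ?_, ?_⟩
  · intro f hf g hg a b ha hb hab
    have hfg : a • f + b • g ∈ O := hO hf hg ha hb hab
    obtain ⟨I1, h1⟩ := hpt f hf
    obtain ⟨I2, h2⟩ := hpt g hg
    obtain ⟨I3, h3⟩ := hpt _ hfg
    have e1 := hsum f (I1 ∪ I2 ∪ I3) fun i hi => h1 i fun h => hi
      (Finset.mem_union_left _ (Finset.mem_union_left _ h))
    have e2 := hsum g (I1 ∪ I2 ∪ I3) fun i hi => h2 i fun h => hi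
      (Finset.mem_union_left _ (Finset.mem_union_right _ h))
    have e3 := hsum (a • f + b • g) (I1 ∪ I2 ∪ I3) fun i hi => h3 i fun h => hi
      (Finset.mem_union_right _ h)
    show (∑ᶠ i, u i (a • f + b • g)) ≤ a • (∑ᶠ i, u i f) + b • (∑ᶠ i, u i g)
    rw [e1, e2, e3, smul_eq_mul, smul_eq_mul, Finset.mul_sum, Finset.mul_sum,
      ← Finset.sum_add_distrib]
    exact Finset.sum_le_sum fun i _ => (hc i).2 hf hg ha hb hab
  · intro f hf
    obtain ⟨I, hI⟩ := hfin f hf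
    have h1 : (fun g => ∑ᶠ i, u i g) =ᶠ[𝓝 f] fun g => ∑ i ∈ I, u i g := by
      filter_upwards [hI] with g hg
      exact hsum g I hg
    refine ContDiffAt.contDiffWithinAt (ContDiffAt.congr_of_eventuallyEq ?_ h1)
    exact ContDiffAt.sum fun i _ => hs i f hf
  · intro f hf i
    obtain ⟨I, hI⟩ := hpt f hf
    refine single_le_finsum (f := fun k => u k f) i ?_ fun k => hu k f
    refine I.finite_toSet.subset ?_
    intro k hk
    by_contra h1
    exact hk (hI k h1)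

end Pool.Agent.CKM
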