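import Mathlib

set_option autoImplicit false

/-!
# CKM [Sup]: the superposition operator `f ↦ ψ ∘ f` on `C(K, X)` is of class `C^∞`
-/

namespace Pool.Agent.CKM

open Set Filter Topology

theorem clm_contDiff (E F : Type) [NormedAddCommGroup E] [NormedSpace ℝ E] [NormedAddCommGroup F]
    [NormedSpace ℝ F] (n : WithTop ℕ∞) (A : E →L[ℝ] F) : ContDiff ℝ n A := A.contDiff

section

variable (K X Y : Type) [TopologicalSpace K] [CompactSpace K] [NormedAddCommGroup X]
  [NormedSpace ℝ X] [NormedAddCommGroup Y] [NormedSpace ℝ Y]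

/-- pointwise application of operators -/
noncomputable def appL : C(K, X →L[ℝ] Y) →L[ℝ] (C(K, X) →L[ℝ] C(K, Y)) :=
  LinearMap.mkContinuous₂
    (LinearMap.mk₂ ℝ (fun (A : C(K, X →L[ℝ] Y)) (g : C(K, X)) =>
        (⟨fun t => A t (g t), by fun_prop⟩ : C(K, Y)))
      (fun A B g => by ext t; rfl)
      (fun c A g => by ext t; rfl)
      (fun A g h => by ext t; exact map_add (A t) _ _)
      (fun c A g => by ext t; exact map_smul (A t) _ _))
    1 (by
      intro A g
      rw [one_mul, ContinuousMap.norm_le _ (by positivity)]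
      intro t
      refine (ContinuousLinearMap.le_opNorm _ _).trans ?_
      have h1 : ‖A t‖ ≤ ‖A‖ := A.norm_coe_le_norm t
      have h2 : ‖g t‖ ≤ ‖g‖ := g.norm_coe_le_norm t
      have h3 : 0 ≤ ‖g t‖ := norm_nonneg _
      have h4 : 0 ≤ ‖A‖ := (norm_nonneg _).trans h1
      exact mul_le_mul h1 h2 h3 h4)

theorem appL_apply (A : C(K, X →L[ℝ] Y)) (g : C(K, X)) (t : K) : appL K X Y A g t = A t (g t) := rfl

end

section

variable {K X : Type} [TopologicalSpace K] [CompactSpace K] [NormedAddCommGroup X]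
  [NormedSpace ℝ X]

theorem hasFDerivAt_postcomp {Y : Type} [NormedAddCommGroup Y] [NormedSpace ℝ Y]
    (ψ : C(X, Y)) (D : C(X, X →L[ℝ] Y)) (h : ∀ x, HasFDerivAt ψ (D x) x) (f : C(K, X)) :
    HasFDerivAt (fun g : C(K, X) => ψ.comp g) (appL K X Y (D.comp f)) f := by
  rw [hasFDerivAt_iff_isLittleO, Asymptotics.isLittleO_iff]
  intro c hc
  have hcomp : IsCompact (range f) := isCompact_range f.continuous
  have h1 := hcomp.uniformContinuousAt_of_continuousAt (r := {p | dist p.1 p.2 < c}) D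
    (fun a _ => D.continuous.continuousAt) (Metric.dist_mem_uniformity hc)
  obtain ⟨δ, hδ, hδ'⟩ := Metric.mem_uniformity_dist.1 h1
  filter_upwards [Metric.ball_mem_nhds f hδ] with g hg
  rw [ContinuousMap.norm_le _ (by positivity)]
  intro t
  have h2 : ∀ x ∈ Metric.ball (f t) δ, ‖fderiv ℝ ψ x - D (f t)‖ ≤ c := by
    intro x hx
    rw [(h x).fderiv]
    have h3 := hδ' (a := f t) (b := x) (by rw [dist_comm]; exact hx) (mem_range_self t)
    have h4 : dist (D (f t)) (D x) < c := h3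
    rw [dist_comm, dist_eq_norm] at h4
    exact h4.le
  have h5 : ‖g t - f t‖ ≤ ‖g - f‖ := (g - f).norm_coe_le_norm t
  have h6 : g t ∈ Metric.ball (f t) δ := by
    rw [mem_ball_iff_norm]
    rw [mem_ball_iff_norm] at hg
    exact lt_of_le_of_lt h5 hg
  have h7 := (convex_ball (f t) δ).norm_image_sub_le_of_norm_fderiv_le'
    (f := ψ) (φ := D (f t)) (C := c) (fun x _ => (h x).differentiableAt) h2
    (Metric.mem_ball_self hδ) h6
  have h8 : (ψ.comp g - ψ.comp f - appL K X Y (D.comp f) (g - f)) t =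
      ψ (g t) - ψ (f t) - D (f t) (g t - f t) := rfl
  rw [h8]
  exact h7.trans (mul_le_mul_of_nonneg_left h5 hc.le)

theorem contDiff_postcomp_nat (n : ℕ) : ∀ (Y : Type) [NormedAddCommGroup Y] [NormedSpace ℝ Y]
    (ψ : C(X, Y)), ContDiff ℝ ((⊤ : ℕ∞) : WithTop ℕ∞) ψ →
    ContDiff ℝ (n : WithTop ℕ∞) (fun g : C(K, X) => ψ.comp g) := by
  induction n with
  | zero =>
    intro Y _ _ ψ _
    have : Continuous (fun g : C(K, X) => ψ.comp g) := ContinuousMap.continuous_postcomp ψ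
    exact contDiff_zero.2 this
  | succ n ih =>
    intro Y _ _ ψ hψ
    have h1 : ContDiff ℝ ((⊤ : ℕ∞) : WithTop ℕ∞) (fderiv ℝ ψ) :=
      hψ.fderiv_right (by norm_num)
    let D : C(X, X →L[ℝ] Y) := ⟨fderiv ℝ ψ, h1.continuous⟩
    have h2 : ∀ x, HasFDerivAt ψ (D x) x := fun x =>
      ((hψ.differentiable (by norm_num)) x).hasFDerivAt
    have h3 := ih (X →L[ℝ] Y) D h1
    have h6 : ContDiff ℝ (n : WithTop ℕ∞) (fun A : C(K, X →L[ℝ] Y) => appL K X Y A) :=
      clm_contDiff (C(K, X →L[ℝ] Y)) (C(K, X) →L[ℝ] C(K, Y)) _ (appL K X Y)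
    have h4 : ContDiff ℝ (n : WithTop ℕ∞) (fun g : C(K, X) => appL K X Y (D.comp g)) :=
      h6.comp h3
    have h5 : ((n + 1 : ℕ) : WithTop ℕ∞) = (n : WithTop ℕ∞) + 1 := by norm_num
    rw [h5]
    exact contDiff_succ_iff_hasFDerivAt.2 ⟨_, h4, fun g => hasFDerivAt_postcomp ψ D h2 g⟩

/-- the superposition operator is of class `C^∞` -/
theorem contDiff_postcomp {Y : Type} [NormedAddCommGroup Y] [NormedSpace ℝ Y] (ψ : C(X, Y))
    (hψ : ContDiff ℝ ((⊤ : ℕ∞) : WithTop ℕ∞) ψ) :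
    ContDiff ℝ ((⊤ : ℕ∞) : WithTop ℕ∞) (fun g : C(K, X) => ψ.comp g) :=
  contDiff_infty.2 fun n => contDiff_postcomp_nat n Y ψ hψ

end

end Pool.Agent.CKM
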