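import Mathlib

set_option autoImplicit false

/-!
# CKM [Zer]: from `C(K)` to `C₀(D)`, `D` a subset of `K`
-/

namespace Pool.Agent.CKM

open Set Filter Topology
open scoped ZeroAtInfty

theorem tendsto_zero {K : Type} [TopologicalSpace K] [CompactSpace K] (D : Set K) (u : K → ℝ)
    (hu : Continuous u) (h : ∀ t ∈ closure D, t ∉ D → u t = 0) :
    Tendsto (fun t : D => u t) (cocompact D) (𝓝 0) := by
  rw [Metric.tendsto_nhds]
  intro ε hε
  rw [Filter.eventually_iff, mem_cocompact]
  refine ⟨{t : D | ε ≤ |u t|}, ?_, ?_⟩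
  · rw [Topology.IsEmbedding.subtypeVal.isCompact_iff]
    have h1 : (Subtype.val '' {t : D | ε ≤ |u t|}) = closure D ∩ {t : K | ε ≤ |u t|} := by
      ext t
      constructor
      · rintro ⟨s, hs, rfl⟩
        exact ⟨subset_closure s.2, hs⟩
      · rintro ⟨h1, h2⟩
        have h3 : t ∈ D := by
          by_contra h4
          have h5 := h t h1 h4
          rw [mem_ofPred_eq, h5, abs_zero] at h2
          linarith
        exact ⟨⟨t, h3⟩, h2, rfl⟩
    rw [h1]
    exact (isClosed_closure.inter (isClosed_le continuous_const hu.abs)).isCompact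
  · intro t ht
    rw [mem_compl_iff, mem_ofPred_eq, not_le] at ht
    rw [mem_ofPred_eq, Real.dist_eq, sub_zero]
    exact ht

/-- multiplication with `χ` and restriction to `D` -/
noncomputable def cutL {K : Type} [TopologicalSpace K] [CompactSpace K] (D : Set K) (χ : C(K, ℝ))
    (h : ∀ t ∈ closure D, t ∉ D → χ t = 0) : C(K, ℝ) →L[ℝ] C₀(D, ℝ) :=
  LinearMap.mkContinuous
    { toFun := fun u => ⟨⟨fun t : D => χ t * u t, by fun_prop⟩,
        tendsto_zero D (fun t => χ t * u t) (by fun_prop) (fun t h1 h2 => by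
          show χ t * u t = 0
          rw [h t h1 h2, zero_mul])⟩
      map_add' := fun u v => by
        ext t
        exact mul_add _ _ _
      map_smul' := fun c u => by
        ext t
        exact mul_left_comm _ _ _ } ‖χ‖ (by
    intro u
    have h0 : 0 ≤ ‖χ‖ * ‖u‖ := by positivity
    rw [← ZeroAtInftyContinuousMap.norm_toBCF_eq_norm]
    rw [BoundedContinuousFunction.norm_le h0]
    intro t
    show ‖χ t * u t‖ ≤ _
    rw [norm_mul]
    exact mul_le_mul (χ.norm_coe_le_norm _) (u.norm_coe_le_norm _) (norm_nonneg _) (norm_nonneg _))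

theorem cutL_apply {K : Type} [TopologicalSpace K] [CompactSpace K] (D : Set K) (χ : C(K, ℝ))
    (h : ∀ t ∈ closure D, t ∉ D → χ t = 0) (u : C(K, ℝ)) (t : D) :
    cutL D χ h u t = χ t * u t := rfl

theorem c0_norm_apply_le {D : Type} [TopologicalSpace D] (u : C₀(D, ℝ)) (t : D) : |u t| ≤ ‖u‖ := by
  rw [← ZeroAtInftyContinuousMap.norm_toBCF_eq_norm]
  exact u.toBCF.norm_coe_le_norm t

end Pool.Agent.CKM
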