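import Pool.Agent.CKS.Main
import Pool.Agent.CKS.Theta
import Pool.Agent.CKS.Gauge
import Pool.Agent.CKM.Sup
import Pool.Agent.CKM.LSum
import Pool.Agent.CKM.Zer

set_option autoImplicit false

/-!
# CKM [Main]: gluing pieces `D_i` such that `C₀(D_i)` has a monotone norm of class `C^∞`
-/

namespace Pool.Agent.CKM

open Set Filter Topology Pool.Agent.CKS
open scoped ZeroAtInfty

/-- `C₀(D)` has an equivalent norm, `C^∞` off `0`, increasing on positive functions -/
def MonoNorm (D : Type) [TopologicalSpace D] : Prop :=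
  ∃ N : Seminorm ℝ C₀(D, ℝ),
    (∃ a b : ℝ, 0 < a ∧ 0 < b ∧ ∀ f : C₀(D, ℝ), a * ‖f‖ ≤ N f ∧ N f ≤ b * ‖f‖) ∧
    (∀ f : C₀(D, ℝ), f ≠ 0 → ContDiffAt ℝ ((⊤ : ℕ∞) : WithTop ℕ∞) (⇑N) f) ∧
    ∀ f g : C₀(D, ℝ), (∀ t, 0 ≤ f t) → (∀ t, f t ≤ g t) → N f ≤ N g

/-- the pieces `D_i` are the sets of all `t ∉ F` with `j t = i` -/
structure Pieces (K : Type) [TopologicalSpace K] (F : Set K) (J : Type) (j : K → J)
    (β δ : J → ℝ) : Prop where
  bounds : ∀ i, 1 ≤ β i ∧ 0 < δ i ∧ β i + δ i ≤ 2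
  sep : ∀ t, t ∉ F → ∀ᶠ u in 𝓝 t, u ∉ F → j u ≠ j t → β (j t) + δ (j t) ≤ β (j u)
  mono : ∀ i, MonoNorm {t : K | t ∉ F ∧ j t = i}

theorem MonoNorm.normal {D : Type} [TopologicalSpace D] (h : MonoNorm D) :
    ∃ N : Seminorm ℝ C₀(D, ℝ), (∀ u, ‖u‖ ≤ N u) ∧ Continuous N ∧
      (∀ u : C₀(D, ℝ), u ≠ 0 → ContDiffAt ℝ ((⊤ : ℕ∞) : WithTop ℕ∞) (⇑N) u) ∧
      ∀ u v : C₀(D, ℝ), (∀ t, 0 ≤ u t) → (∀ t, u t ≤ v t) → N u ≤ N v := by
  obtain ⟨N, ⟨a, b, ha, hb, hab⟩, hs, hm⟩ := h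
  have hN : ∀ u, ((Real.toNNReal (1 / a)) • N) u = (1 / a) * N u := by
    intro u
    have : ((Real.toNNReal (1 / a)) • N) u = (Real.toNNReal (1 / a)) • N u := rfl
    rw [this, NNReal.smul_def, Real.coe_toNNReal _ (by positivity), smul_eq_mul]
  refine ⟨(Real.toNNReal (1 / a)) • N, ?_, ?_, ?_, ?_⟩
  · intro u
    rw [hN, one_div, inv_mul_eq_div, le_div_iff₀ ha]
    linarith [(hab u).1]
  · apply Seminorm.continuous_of_le (q := (Real.toNNReal (b / a)) • normSeminorm ℝ C₀(D, ℝ))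
    · exact continuous_const.smul continuous_norm
    · intro u
      have : ((Real.toNNReal (b / a)) • normSeminorm ℝ C₀(D, ℝ)) u =
          (Real.toNNReal (b / a)) • ‖u‖ := rfl
      rw [this, NNReal.smul_def, Real.coe_toNNReal _ (by positivity), smul_eq_mul, hN]
      have h1 : 0 < 1 / a := by positivity
      calc 1 / a * N u ≤ 1 / a * (b * ‖u‖) := mul_le_mul_of_nonneg_left (hab u).2 h1.le
        _ = b / a * ‖u‖ := by ring
  · intro u hu
    have h1 : (⇑((Real.toNNReal (1 / a)) • N) : C₀(D, ℝ) → ℝ) = fun v => (1 / a) * N v := by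
      funext v
      exact hN v
    rw [h1]
    exact contDiffAt_const.mul (hs u hu)
  · intro u v h1 h2
    rw [hN, hN]
    exact mul_le_mul_of_nonneg_left (hm u v h1 h2) (by positivity)

/-- `N` on functions -/
noncomputable def onF {D : Type} [TopologicalSpace D] (N : Seminorm ℝ C₀(D, ℝ)) (v : D → ℝ) : ℝ :=
  open Classical in
  if h : Continuous v ∧ Tendsto v (cocompact D) (𝓝 0) then N ⟨⟨v, h.1⟩, h.2⟩ else 0

theorem onF_eq {D : Type} [TopologicalSpace D] (N : Seminorm ℝ C₀(D, ℝ)) (v : D → ℝ)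
    (w : C₀(D, ℝ)) (h : ∀ t, v t = w t) : onF N v = N w := by
  have h1 : v = w := funext h
  subst h1
  unfold onF
  rw [dif_pos ⟨w.continuous, w.zero_at_infty'⟩]
  rfl

theorem onF_zero {D : Type} [TopologicalSpace D] (N : Seminorm ℝ C₀(D, ℝ)) (v : D → ℝ)
    (h : ∀ t, v t = 0) : onF N v = 0 := by
  rw [onF_eq N v 0 h, map_zero]

/-- the properties of the function `x ↦ θ ((‖x‖ - c) / d)` -/
theorem exists_psi {X : Type} [NormedAddCommGroup X] [NormedSpace ℝ X]
    (hX : ∀ x : X, x ≠ 0 → ContDiffAt ℝ ((⊤ : ℕ∞) : WithTop ℕ∞) (fun y : X => ‖y‖) x)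
    (c d : ℝ) (hc : 0 < c) (hd : 0 < d) :
    ∃ ψ : C(X, ℝ), ContDiff ℝ ((⊤ : ℕ∞) : WithTop ℕ∞) ψ ∧ (∀ x, 0 ≤ ψ x) ∧
      (∀ x, ‖x‖ ≤ c → ψ x = 0) ∧ (∀ x, c + d ≤ ‖x‖ → 2 ≤ ψ x) ∧ (∀ x, ψ (-x) = ψ x) ∧
      ∀ (x y : X) (a b : ℝ), 0 ≤ a → 0 ≤ b → a + b = 1 → ψ (a • x + b • y) ≤ a * ψ x + b * ψ y := by
  obtain ⟨θ, θC, θconv, θmono, θ0, θ1⟩ := thm_Theta
  have hsm : ContDiff ℝ ((⊤ : ℕ∞) : WithTop ℕ∞) (fun x : X => θ ((‖x‖ - c) / d)) := by
    rw [contDiff_iff_contDiffAt]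
    intro x
    by_cases hx : x = 0
    · have h1 : (fun x : X => θ ((‖x‖ - c) / d)) =ᶠ[𝓝 x] fun _ => 0 := by
        have h2 : ∀ᶠ y in 𝓝 x, ‖y‖ < c := by
          rw [hx]
          have h3 : ContinuousAt (fun y : X => ‖y‖) 0 := continuous_norm.continuousAt
          exact h3.eventually_lt continuousAt_const (by rw [norm_zero]; exact hc)
        filter_upwards [h2] with y hy
        exact θ0 _ (div_nonpos_of_nonpos_of_nonneg (by linarith) hd.le)
      exact contDiffAt_const.congr_of_eventuallyEq h1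
    · have h3 : ContDiffAt ℝ ((⊤ : ℕ∞) : WithTop ℕ∞) (fun y : X => (‖y‖ - c) / d) x :=
        ((hX x hx).sub contDiffAt_const).div_const _
      exact ContDiffAt.comp x θC.contDiffAt h3
  refine ⟨⟨fun x => θ ((‖x‖ - c) / d), hsm.continuous⟩, hsm, ?_, ?_, ?_, ?_, ?_⟩
  · intro x
    show 0 ≤ θ ((‖x‖ - c) / d)
    rcases le_total ((‖x‖ - c) / d) 0 with h | h
    · rw [θ0 _ h]
    · rw [← θ0 0 le_rfl]
      exact θmono h
  · intro x hx
    exact θ0 _ (div_nonpos_of_nonpos_of_nonneg (by linarith) hd.le)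
  · intro x hx
    show 2 ≤ θ ((‖x‖ - c) / d)
    rw [← θ1]
    apply θmono
    rw [le_div_iff₀ hd]
    linarith
  · intro x
    show θ ((‖-x‖ - c) / d) = θ ((‖x‖ - c) / d)
    rw [norm_neg]
  · intro x y a b ha hb hab
    show θ ((‖a • x + b • y‖ - c) / d) ≤ a * θ ((‖x‖ - c) / d) + b * θ ((‖y‖ - c) / d)
    have h1 : ‖a • x + b • y‖ ≤ a * ‖x‖ + b * ‖y‖ := by
      refine (norm_add_le _ _).trans ?_
      rw [norm_smul, norm_smul, Real.norm_of_nonneg ha, Real.norm_of_nonneg hb]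
    have h2 : (‖a • x + b • y‖ - c) / d ≤ a * ((‖x‖ - c) / d) + b * ((‖y‖ - c) / d) := by
      have h3 : a * ((‖x‖ - c) / d) + b * ((‖y‖ - c) / d) = (a * ‖x‖ + b * ‖y‖ - (a + b) * c) / d := by
        field_simp
        ring
      rw [h3, hab, one_mul]
      exact div_le_div_of_nonneg_right (by linarith) hd.le
    exact (θmono h2).trans (θconv.2 (mem_univ _) (mem_univ _) ha hb hab)

/-- `E` has a norm `N` of class `C^∞` off `0` with `‖f‖ ≤ N f ≤ b ‖f‖` -/
def NormB (E : Type) [NormedAddCommGroup E] [NormedSpace ℝ E] (b : ℝ) : Prop :=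
  ∃ N : Seminorm ℝ E, (∀ f : E, ‖f‖ ≤ N f ∧ N f ≤ b * ‖f‖) ∧
    ∀ f : E, f ≠ 0 → ContDiffAt ℝ ((⊤ : ℕ∞) : WithTop ℕ∞) (⇑N) f

/-- the gauge of a smooth symmetric convex body, with constants -/
theorem gaugeB (E : Type) [NormedAddCommGroup E] [NormedSpace ℝ E] [CompleteSpace E]
    (O : Set E) (Φ : E → ℝ) (r : ℝ) (hr : 0 < r) (hO : IsOpen O) (h0 : (0 : E) ∈ O)
    (hconv : ConvexOn ℝ O Φ) (hsym : ∀ f ∈ O, -f ∈ O ∧ Φ (-f) = Φ f)
    (hsm : ContDiffOn ℝ ((⊤ : ℕ∞) : WithTop ℕ∞) Φ O) (hΦ0 : Φ 0 = 0)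
    (hcl : IsClosed {f : E | f ∈ O ∧ Φ f ≤ 1}) (hbd : ∀ f ∈ O, Φ f ≤ 1 → ‖f‖ ≤ 1)
    (hin : ∀ f : E, ‖f‖ ≤ r → f ∈ O ∧ Φ f ≤ 1) : NormB E (1 / r) := by
  set U : Set E := {f : E | f ∈ O ∧ Φ f ≤ 1} with hU
  have hUc : Convex ℝ U := hconv.convex_le 1
  have hUn : U ∈ 𝓝 (0 : E) := by
    filter_upwards [Metric.ball_mem_nhds (0 : E) hr] with f hf
    rw [mem_ball_zero_iff] at hf
    exact hin f hf.le
  have hUa : Absorbent ℝ U := absorbent_nhds_zero hUn
  have hUb : Balanced ℝ U := by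
    rw [balanced_iff_neg_mem hUc]
    intro x hx
    obtain ⟨h1, h2⟩ := hsym x hx.1
    exact ⟨h1, by rw [h2]; exact hx.2⟩
  let N : Seminorm ℝ E := gaugeSeminorm hUb hUc hUa
  have hN : ∀ f, N f = gauge U f := fun f => rfl
  have hle1 : ∀ z, N z ≤ 1 ↔ z ∈ U := by
    intro z
    rw [hN, gauge_le_one_iff_mem_closure hUc hUn, hcl.closure_eq]
  have hlow : ∀ f : E, ‖f‖ ≤ N f := by
    intro f
    have h1 := le_gauge_of_subset_closedBall (x := f) hUa zero_le_one
      (fun x hx => by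
        rw [mem_closedBall_zero_iff]
        exact hbd x hx.1 hx.2)
    rw [hN]
    rwa [div_one] at h1
  have hup : ∀ f : E, N f ≤ 1 / r * ‖f‖ := by
    intro f
    have hball : Metric.ball (0 : E) r ⊆ U := by
      intro x hx
      rw [mem_ball_zero_iff] at hx
      exact hin x hx.le
    have h1 := mul_gauge_le_norm (x := f) hball
    rw [hN, one_div, inv_mul_eq_div, le_div_iff₀ hr, mul_comm]
    exact h1
  refine ⟨N, fun f => ⟨hlow f, hup f⟩, ?_⟩
  intro f hf
  refine SDN.thm_GS E N ?_ f ?_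
  · intro x hx
    have hxU : x ∈ U := (hle1 x).1 hx.le
    refine ⟨O, Φ, hO, h0, hxU.1, hsm.contDiffAt (hO.mem_nhds hxU.1), hconv, hΦ0, ?_⟩
    filter_upwards [hO.mem_nhds hxU.1] with z hz
    rw [hle1]
    exact ⟨fun h => h.2, fun h => ⟨hz, h⟩⟩
  · have h1 : 0 < ‖f‖ := norm_pos_iff.2 hf
    exact (lt_of_lt_of_le h1 (hlow f)).ne'

/-- compactness: uniform gaps, finitely many relevant pieces -/
theorem exists_gap {K X : Type} [TopologicalSpace K] [CompactSpace K] [NormedAddCommGroup X]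
    (F : Set K) (J : Type) (j : K → J) (β δ : J → ℝ)
    (c : ℝ) (hb : ∀ i, c ≤ β i ∧ 0 < δ i)
    (hsep : ∀ t, t ∉ F → ∀ᶠ u in 𝓝 t, u ∉ F → j u ≠ j t → β (j t) + δ (j t) ≤ β (j u))
    (f : C(K, X)) (hf1 : ∀ t ∈ F, ‖f t‖ < c)
    (hf2 : ∀ t, t ∉ F → ‖f t‖ < β (j t) + 3 * δ (j t) / 4) :
    ∃ ε : ℝ, 0 < ε ∧ ∃ I : Finset J, ∀ t, t ∉ F →
      ‖f t‖ + ε ≤ β (j t) + 3 * δ (j t) / 4 ∧ (j t ∉ I → ‖f t‖ + ε ≤ β (j t)) := by
  classical
  have key := (isCompact_univ (X := K)).induction_on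
    (p := fun S => ∃ ε : ℝ, 0 < ε ∧ ∃ I : Finset J, ∀ t ∈ S, t ∉ F →
      ‖f t‖ + ε ≤ β (j t) + 3 * δ (j t) / 4 ∧ (j t ∉ I → ‖f t‖ + ε ≤ β (j t)))
    ⟨1, one_pos, ∅, fun t ht => absurd ht (notMem_empty t)⟩ ?_ ?_ ?_
  · obtain ⟨ε, hε, I, hI⟩ := key
    exact ⟨ε, hε, I, fun t ht => hI t (mem_univ t) ht⟩
  · rintro S T hST ⟨ε, hε, I, hI⟩
    exact ⟨ε, hε, I, fun t ht h => hI t (hST ht) h⟩
  · rintro S T ⟨ε, hε, I, hI⟩ ⟨ε', hε', I', hI'⟩
    refine ⟨min ε ε', lt_min hε hε', I ∪ I', ?_⟩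
    intro t ht htF
    have m1 : min ε ε' ≤ ε := min_le_left _ _
    have m2 : min ε ε' ≤ ε' := min_le_right _ _
    rcases ht with ht | ht
    · obtain ⟨h1, h2⟩ := hI t ht htF
      refine ⟨by linarith, fun h => ?_⟩
      have := h2 fun h' => h (Finset.mem_union_left _ h')
      linarith
    · obtain ⟨h1, h2⟩ := hI' t ht htF
      refine ⟨by linarith, fun h => ?_⟩
      have := h2 fun h' => h (Finset.mem_union_right _ h')
      linarith
  · intro t0 _
    have hfc : ContinuousAt (fun t => ‖f t‖) t0 := f.continuous.norm.continuousAt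
    by_cases ht0 : t0 ∈ F
    · obtain ⟨e, he1, he2⟩ : ∃ e : ℝ, ‖f t0‖ < e ∧ e < c := exists_between (hf1 t0 ht0)
      have h1 : ∀ᶠ t in 𝓝 t0, ‖f t‖ < e := hfc.eventually_lt continuousAt_const he1
      refine ⟨{t | ‖f t‖ < e}, mem_nhdsWithin_of_mem_nhds h1, c - e, by linarith, ∅, ?_⟩
      intro t ht _
      have ht' : ‖f t‖ < e := ht
      have h2 := (hb (j t)).1
      have h3 := (hb (j t)).2
      exact ⟨by linarith, fun _ => by linarith⟩
    · have h1 := hf2 t0 ht0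
      have h3 := (hb (j t0)).2
      obtain ⟨e, he1, he2⟩ : ∃ e : ℝ, ‖f t0‖ < e ∧ e < β (j t0) + 3 * δ (j t0) / 4 :=
        exists_between h1
      have h4 : ∀ᶠ t in 𝓝 t0, ‖f t‖ < e := hfc.eventually_lt continuousAt_const he1
      have h5 : ∀ᶠ t in 𝓝 t0, ‖f t‖ < e ∧
          (t ∉ F → j t ≠ j t0 → β (j t0) + δ (j t0) ≤ β (j t)) := h4.and (hsep t0 ht0)
      refine ⟨{t | ‖f t‖ < e ∧ (t ∉ F → j t ≠ j t0 → β (j t0) + δ (j t0) ≤ β (j t))},
        mem_nhdsWithin_of_mem_nhds h5, β (j t0) + 3 * δ (j t0) / 4 - e, by linarith, {j t0}, ?_⟩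
      rintro t ⟨ht1, ht2⟩ htF
      by_cases hj : j t = j t0
      · rw [hj]
        refine ⟨by linarith, fun h => ?_⟩
        exact absurd (Finset.mem_singleton_self _) h
      · have h6 := ht2 htF hj
        have h7 := (hb (j t)).2
        exact ⟨by linarith, fun _ => by linarith⟩

/-- the local form of the term of the piece `i` -/
theorem exists_local {K X : Type} [TopologicalSpace K] [CompactSpace K] [NormedAddCommGroup X]
    [NormedSpace ℝ X] (D : Set K) (N : Seminorm ℝ C₀(D, ℝ)) (b d : ℝ) (hd : 0 < d)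
    (ψ : C(X, ℝ)) (hψ : ∀ x, ‖x‖ ≤ b + d / 4 → ψ x = 0) (f : C(K, X))
    (hf : ∀ t ∈ closure D, t ∉ D → ‖f t‖ ≤ b) :
    ∃ L : C(K, ℝ) →L[ℝ] C₀(D, ℝ), ∀ g : C(K, X), ‖g - f‖ < d / 8 →
      (∀ t : D, L (ψ.comp g) t = ψ (g t)) ∧ onF N (fun t : D => ψ (g t)) = N (L (ψ.comp g)) := by
  let χ : C(K, ℝ) := ⟨fun t => max 0 (min 1 ((‖f t‖ - b) / (d / 8))), by fun_prop⟩
  have hχ : ∀ t ∈ closure D, t ∉ D → χ t = 0 := by
    intro t h1 h2
    have h3 := hf t h1 h2
    show max 0 (min 1 ((‖f t‖ - b) / (d / 8))) = 0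
    apply max_eq_left
    exact (min_le_right _ _).trans (div_nonpos_of_nonpos_of_nonneg (by linarith) (by linarith))
  have hχ1 : ∀ t, b + d / 8 ≤ ‖f t‖ → χ t = 1 := by
    intro t ht
    show max 0 (min 1 ((‖f t‖ - b) / (d / 8))) = 1
    have h1 : 1 ≤ (‖f t‖ - b) / (d / 8) := by
      rw [le_div_iff₀ (by linarith)]
      linarith
    rw [min_eq_left h1]
    exact max_eq_right zero_le_one
  refine ⟨cutL D χ hχ, ?_⟩
  intro g hg
  have h1 : ∀ t : D, cutL D χ hχ (ψ.comp g) t = ψ (g t) := by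
    intro t
    rw [cutL_apply]
    show χ t * ψ (g t) = ψ (g t)
    by_cases h : ‖g t‖ ≤ b + d / 4
    · rw [hψ _ h, mul_zero]
    · push Not at h
      have h2 : ‖(g - f) t‖ ≤ ‖g - f‖ := (g - f).norm_coe_le_norm t
      have h3 : ‖g t‖ ≤ ‖(g - f) t‖ + ‖f t‖ := by
        have := norm_add_le ((g - f) t) (f t)
        have e : (g - f) t + f t = g t := by
          show g t - f t + f t = g t
          abel
        rwa [e] at this
      rw [hχ1 t (by linarith), one_mul]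
  exact ⟨h1, onF_eq N _ _ fun t => (h1 t).symm⟩

theorem mainC (K X : Type) [TopologicalSpace K] [CompactSpace K] [NormedAddCommGroup X]
    [NormedSpace ℝ X] [CompleteSpace X]
    (hX : ∀ x : X, x ≠ 0 → ContDiffAt ℝ ((⊤ : ℕ∞) : WithTop ℕ∞) (fun y : X => ‖y‖) x)
    (F : Set K) [CompactSpace F] (b : ℝ) (hb : 1 ≤ b) (hF : NormB C(F, X) b) (J : Type)
    (j : K → J) (β δ : J → ℝ) (c κ : ℝ) (hκ : 0 < κ) (hc : 2 * κ < c) (hc1 : c ≤ 1)
    (hbd : ∀ i, c ≤ β i ∧ 0 < δ i ∧ β i + δ i ≤ 1)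
    (hsep : ∀ t, t ∉ F → ∀ᶠ u in 𝓝 t, u ∉ F → j u ≠ j t → β (j t) + δ (j t) ≤ β (j u))
    (hmono : ∀ i, MonoNorm {t : K | t ∉ F ∧ j t = i}) :
    NormB C(K, X) (1 / ((c - 2 * κ) / b)) := by
  classical
  obtain ⟨θ, θC, θconv, θmono, θ0, θ1⟩ := thm_Theta
  have θn : ∀ x, 0 ≤ θ x := by
    intro x
    rcases le_total x 0 with h | h
    · rw [θ0 x h]
    · rw [← θ0 0 le_rfl]
      exact θmono h
  obtain ⟨N0, hab, hN0⟩ := hF
  have hδ : ∀ i, 0 < δ i := fun i => (hbd i).2.1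
  have hβ : ∀ i, c ≤ β i := fun i => (hbd i).1
  have hβδ : ∀ i, β i + δ i ≤ 1 := fun i => (hbd i).2.2
  have hb0 : 0 < b := by linarith
  have hc0 : 0 < c := by linarith
  -- the seminorm of `F`
  let p : Seminorm ℝ C(K, X) := N0.comp (restr F).toLinearMap
  have hp : ∀ f, p f = N0 (restr F f) := fun f => rfl
  have hpF : ∀ f, ∀ t ∈ F, ‖f t‖ ≤ p f := by
    intro f t ht
    have h1 : ‖f t‖ ≤ ‖restr F f‖ := (restr F f).norm_coe_le_norm ⟨t, ht⟩
    exact h1.trans (hab (restr F f)).1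
  have hrn : ∀ f : C(K, X), ‖restr F f‖ ≤ ‖f‖ := by
    intro f
    rw [ContinuousMap.norm_le _ (norm_nonneg _)]
    intro t
    exact f.norm_coe_le_norm _
  have hpb : ∀ f, p f ≤ b * ‖f‖ := by
    intro f
    have h1 := (hab (restr F f)).2
    have h2 := hrn f
    have h3 := mul_le_mul_of_nonneg_left h2 hb0.le
    rw [hp]
    linarith
  have hpc : Continuous p := by
    apply Seminorm.continuous_of_le (q := (Real.toNNReal b) • normSeminorm ℝ C(K, X))
    · exact continuous_const.smul continuous_norm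
    · intro f
      have : ((Real.toNNReal b) • normSeminorm ℝ C(K, X)) f =
          (Real.toNNReal b) • ‖f‖ := rfl
      rw [this, NNReal.smul_def, Real.coe_toNNReal _ hb0.le, smul_eq_mul]
      exact hpb f
  -- the pieces
  let D : J → Set K := fun i => {t : K | t ∉ F ∧ j t = i}
  have hmn : ∀ i, ∃ N : Seminorm ℝ C₀(D i, ℝ), (∀ u, ‖u‖ ≤ N u) ∧ Continuous N ∧
      (∀ u : C₀(D i, ℝ), u ≠ 0 → ContDiffAt ℝ ((⊤ : ℕ∞) : WithTop ℕ∞) (⇑N) u) ∧
      ∀ u v : C₀(D i, ℝ), (∀ t, 0 ≤ u t) → (∀ t, u t ≤ v t) → N u ≤ N v :=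
    fun i => (hmono i).normal
  choose N hN1 hNc hNs hNm using hmn
  have hex : ∀ i, ∃ ψ : C(X, ℝ), ContDiff ℝ ((⊤ : ℕ∞) : WithTop ℕ∞) ψ ∧ (∀ x, 0 ≤ ψ x) ∧
      (∀ x, ‖x‖ ≤ β i + δ i / 4 → ψ x = 0) ∧ (∀ x, β i + δ i / 4 + δ i / 4 ≤ ‖x‖ → 2 ≤ ψ x) ∧
      (∀ x, ψ (-x) = ψ x) ∧
      ∀ (x y : X) (a b : ℝ), 0 ≤ a → 0 ≤ b → a + b = 1 →
        ψ (a • x + b • y) ≤ a * ψ x + b * ψ y := by
    intro i
    have h1 := hδ i
    have h2 := hβ i
    exact exists_psi hX (β i + δ i / 4) (δ i / 4) (by linarith) (by linarith)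
  choose ψ hψC hψn hψ0 hψ2 hψneg hψcv using hex
  let G : J → C(K, X) → ℝ := fun i f => onF (N i) (fun t : D i => ψ i (f t))
  let B : J → ℝ := fun i => β i + 3 * δ i / 4
  let O : Set C(K, X) := {f | p f < c ∧ ∀ t, t ∉ F → ‖f t‖ < B (j t)}
  have hB1 : ∀ i, c ≤ B i := fun i => by
    have := hδ i
    have := hβ i
    show c ≤ β i + 3 * δ i / 4
    linarith
  have hB2 : ∀ i, B i ≤ 1 := fun i => by
    have := hδ i
    have := hβδ i
    show β i + 3 * δ i / 4 ≤ 1
    linarith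
  have hOF : ∀ f ∈ O, ∀ t ∈ F, ‖f t‖ < c := by
    intro f hf t ht
    exact lt_of_le_of_lt (hpF f t ht) hf.1
  have hOn : ∀ f ∈ O, ‖f‖ ≤ 1 := by
    intro f hf
    rw [ContinuousMap.norm_le _ (by norm_num)]
    intro t
    by_cases ht : t ∈ F
    · linarith [hOF f hf t ht]
    · linarith [hf.2 t ht, hB2 (j t)]
  have hgap : ∀ f ∈ O, ∃ ε : ℝ, 0 < ε ∧ ∃ I : Finset J, ∀ t, t ∉ F →
      ‖f t‖ + ε ≤ β (j t) + 3 * δ (j t) / 4 ∧ (j t ∉ I → ‖f t‖ + ε ≤ β (j t)) :=
    fun f hf => exists_gap F J j β δ c (fun i => ⟨hβ i, hδ i⟩) hsep f (hOF f hf) hf.2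
  have happ : ∀ (f g : C(K, X)) (t : K), ‖g t‖ ≤ ‖f t‖ + ‖g - f‖ := by
    intro f g t
    have h2 : ‖(g - f) t‖ ≤ ‖g - f‖ := (g - f).norm_coe_le_norm t
    have h3 := norm_add_le ((g - f) t) (f t)
    have e : (g - f) t + f t = g t := by
      show g t - f t + f t = g t
      abel
    rw [e] at h3
    linarith
  -- openness
  have hO : IsOpen O := by
    rw [Metric.isOpen_iff]
    intro f hf
    obtain ⟨ε, hε, I, hI⟩ := hgap f hf
    have hopen : {g : C(K, X) | p g < c} ∈ 𝓝 f :=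
      (isOpen_lt hpc continuous_const).mem_nhds hf.1
    obtain ⟨r, hr, hr'⟩ := Metric.mem_nhds_iff.1 hopen
    refine ⟨min r ε, lt_min hr hε, ?_⟩
    intro g hg
    rw [Metric.mem_ball] at hg
    have hg1 : dist g f < r := lt_of_lt_of_le hg (min_le_left _ _)
    have hg2 : dist g f < ε := lt_of_lt_of_le hg (min_le_right _ _)
    refine ⟨hr' (Metric.mem_ball.2 hg1), ?_⟩
    intro t ht
    have h1 := (hI t ht).1
    rw [dist_eq_norm] at hg2
    have h3 := happ f g t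
    show ‖g t‖ < β (j t) + 3 * δ (j t) / 4
    linarith
  have hOconv : Convex ℝ O := by
    intro f hf g hg x y hx hy hxy
    refine ⟨?_, ?_⟩
    · have h1 : p (x • f + y • g) ≤ x * p f + y * p g := by
        have := map_add_le_add p (x • f) (y • g)
        rw [map_smul_eq_mul, map_smul_eq_mul, Real.norm_of_nonneg hx, Real.norm_of_nonneg hy]
          at this
        exact this
      exact lt_of_le_of_lt h1 (comb_lt hx hy hxy hf.1 hg.1)
    · intro t ht
      have h1 : ‖(x • f + y • g) t‖ ≤ x * ‖f t‖ + y * ‖g t‖ := by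
        have : (x • f + y • g) t = x • f t + y • g t := rfl
        rw [this]
        refine (norm_add_le _ _).trans ?_
        rw [norm_smul, norm_smul, Real.norm_of_nonneg hx, Real.norm_of_nonneg hy]
      exact lt_of_le_of_lt h1 (comb_lt hx hy hxy (hf.2 t ht) (hg.2 t ht))
  have h0O : (0 : C(K, X)) ∈ O := by
    refine ⟨?_, ?_⟩
    · rw [map_zero]; exact hc0
    · intro t _
      have := hB1 (j t)
      show ‖(0 : X)‖ < B (j t)
      rw [norm_zero]
      linarith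
  have hOneg : ∀ f ∈ O, -f ∈ O := by
    intro f hf
    refine ⟨?_, ?_⟩
    · rw [map_neg_eq_map]; exact hf.1
    · intro t ht
      have : (-f) t = -(f t) := rfl
      rw [this, norm_neg]
      exact hf.2 t ht
  -- local form
  have hloc : ∀ f ∈ O, ∀ i, ∃ L : C(K, ℝ) →L[ℝ] C₀(D i, ℝ), ∀ g : C(K, X), ‖g - f‖ < δ i / 8 →
      (∀ t : D i, L ((ψ i).comp g) t = ψ i (g t)) ∧ G i g = N i (L ((ψ i).comp g)) := by
    intro f hf i
    apply exists_local (D i) (N i) (β i) (δ i) (hδ i) (ψ i) (hψ0 i) f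
    intro t ht1 ht2
    by_cases htF : t ∈ F
    · linarith [hOF f hf t htF, hβ i]
    · have h1 : j t ≠ i := fun h => ht2 ⟨htF, h⟩
      have h2 := hsep t htF
      obtain ⟨u, hu1, hu2⟩ := mem_closure_iff_nhds.1 ht1 _ h2
      have hu3 : u ∉ F := hu2.1
      have hu4 : j u = i := hu2.2
      have h3 := hu1 hu3 (by rw [hu4]; exact fun h => h1 h.symm)
      rw [hu4] at h3
      have h4 := hf.2 t htF
      have h5 : ‖f t‖ < β (j t) + 3 * δ (j t) / 4 := h4
      linarith [hδ (j t)]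
  have hel : ∀ f ∈ O, ∀ i, ∃ v : C₀(D i, ℝ), (∀ t : D i, v t = ψ i (f t)) ∧ G i f = N i v := by
    intro f hf i
    obtain ⟨L, hL⟩ := hloc f hf i
    obtain ⟨h1, h2⟩ := hL f (by rw [sub_self, norm_zero]; linarith [hδ i])
    exact ⟨_, h1, h2⟩
  have hGψ : ∀ f ∈ O, ∀ t, t ∉ F → ψ (j t) (f t) ≤ G (j t) f := by
    intro f hf t ht
    obtain ⟨v, hv1, hv2⟩ := hel f hf (j t)
    rw [hv2]
    have h1 := hv1 ⟨t, ht, rfl⟩
    have h2 := c0_norm_apply_le v ⟨t, ht, rfl⟩
    have h3 := hN1 (j t) v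
    rw [← h1]
    exact (le_abs_self _).trans (h2.trans h3)
  have hGc : ∀ i, ConvexOn ℝ O (G i) := by
    intro i
    refine ⟨hOconv, ?_⟩
    intro f hf g hg x y hx hy hxy
    obtain ⟨v, hv1, hv2⟩ := hel f hf i
    obtain ⟨w, hw1, hw2⟩ := hel g hg i
    obtain ⟨z, hz1, hz2⟩ := hel _ (hOconv hf hg hx hy hxy) i
    show G i (x • f + y • g) ≤ x • G i f + y • G i g
    rw [hv2, hw2, hz2, smul_eq_mul, smul_eq_mul]
    have h1 : N i z ≤ N i (x • v + y • w) := by
      apply hNm i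
      · intro t
        rw [hz1]
        exact hψn i _
      · intro t
        have h2 : (x • v + y • w) t = x * v t + y * w t := rfl
        rw [hz1, h2, hv1, hw1]
        exact hψcv i _ _ x y hx hy hxy
    have h3 : N i (x • v + y • w) ≤ x * N i v + y * N i w := by
      have := map_add_le_add (N i) (x • v) (y • w)
      rw [map_smul_eq_mul, map_smul_eq_mul, Real.norm_of_nonneg hx, Real.norm_of_nonneg hy]
        at this
      exact this
    exact h1.trans h3
  have hGn : ∀ i, ∀ f ∈ O, 0 ≤ G i f := by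
    intro i f hf
    obtain ⟨v, hv1, hv2⟩ := hel f hf i
    rw [hv2]
    exact apply_nonneg _ _
  -- the terms
  let u : Option J → C(K, X) → ℝ := fun o f =>
    match o with
    | none => θ ((p f - (c - 2 * κ)) / κ)
    | some i => θ (G i f - 1)
  have hu0 : ∀ o f, 0 ≤ u o f := by
    intro o f
    match o with
    | none => exact θn _
    | some i => exact θn _
  have hconvθ : ∀ v : C(K, X) → ℝ, ConvexOn ℝ O v → ConvexOn ℝ O (fun f => θ (v f)) := by
    intro v hv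
    refine ⟨hOconv, ?_⟩
    intro f hf g hg x y hx hy hxy
    have h1 := hv.2 hf hg hx hy hxy
    exact (θmono h1).trans (θconv.2 (mem_univ _) (mem_univ _) hx hy hxy)
  have huc : ∀ o, ConvexOn ℝ O (u o) := by
    intro o
    match o with
    | none =>
      apply hconvθ
      refine ⟨hOconv, ?_⟩
      intro f hf g hg x y hx hy hxy
      have h1 : p (x • f + y • g) ≤ x * p f + y * p g := by
        have := map_add_le_add p (x • f) (y • g)
        rw [map_smul_eq_mul, map_smul_eq_mul, Real.norm_of_nonneg hx, Real.norm_of_nonneg hy]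
          at this
        exact this
      show (p (x • f + y • g) - (c - 2 * κ)) / κ ≤
        x * ((p f - (c - 2 * κ)) / κ) + y * ((p g - (c - 2 * κ)) / κ)
      have h2 : x * ((p f - (c - 2 * κ)) / κ) + y * ((p g - (c - 2 * κ)) / κ) =
          (x * p f + y * p g - (x + y) * (c - 2 * κ)) / κ := by
        field_simp
        ring
      rw [h2, hxy, one_mul]
      exact div_le_div_of_nonneg_right (by linarith) hκ.le
    | some i =>
      apply hconvθ
      refine ⟨hOconv, ?_⟩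
      intro f hf g hg x y hx hy hxy
      have h1 := (hGc i).2 hf hg hx hy hxy
      rw [smul_eq_mul, smul_eq_mul] at h1
      show G i (x • f + y • g) - 1 ≤ x * (G i f - 1) + y * (G i g - 1)
      have h2 : x * (G i f - 1) + y * (G i g - 1) = (x * G i f + y * G i g) - (x + y) := by ring
      rw [h2, hxy]
      linarith
  have hus : ∀ o, ∀ f ∈ O, ContDiffAt ℝ ((⊤ : ℕ∞) : WithTop ℕ∞) (u o) f := by
    intro o f hf
    match o with
    | none =>
      by_cases h2 : restr F f = 0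
      · have h3 : (u none) =ᶠ[𝓝 f] fun _ => 0 := by
          have h4 : ∀ᶠ g in 𝓝 f, p g < c - 2 * κ := by
            apply hpc.continuousAt.eventually_lt continuousAt_const
            rw [hp, h2, map_zero]
            linarith
          filter_upwards [h4] with g hg
          exact θ0 _ (div_nonpos_of_nonpos_of_nonneg (by linarith) hκ.le)
        exact contDiffAt_const.congr_of_eventuallyEq h3
      · have h6 : ContDiffAt ℝ ((⊤ : ℕ∞) : WithTop ℕ∞) (fun g : C(K, X) => p g) f := by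
          have hr : ContDiffAt ℝ ((⊤ : ℕ∞) : WithTop ℕ∞) (fun g : C(K, X) => restr F g) f :=
            (restr F : C(K, X) →L[ℝ] C(F, X)).contDiff.contDiffAt
          exact (hN0 (restr F f) h2).comp f hr
        have h5 : ContDiffAt ℝ ((⊤ : ℕ∞) : WithTop ℕ∞) (fun g => (p g - (c - 2 * κ)) / κ) f :=
          (h6.sub contDiffAt_const).div_const _
        exact ContDiffAt.comp f θC.contDiffAt h5
    | some i =>
      obtain ⟨L, hL⟩ := hloc f hf i
      have h1 : ∀ᶠ g in 𝓝 f, G i g = N i (L ((ψ i).comp g)) := by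
        filter_upwards [Metric.ball_mem_nhds f (show 0 < δ i / 8 by linarith [hδ i])] with g hg
        rw [mem_ball_iff_norm] at hg
        exact (hL g hg).2
      have h2 : ContDiff ℝ ((⊤ : ℕ∞) : WithTop ℕ∞) (fun g : C(K, X) => L ((ψ i).comp g)) :=
        L.contDiff.comp (contDiff_postcomp (ψ i) (hψC i))
      by_cases h3 : L ((ψ i).comp f) = 0
      · have h4 : (u (some i)) =ᶠ[𝓝 f] fun _ => 0 := by
          have h5 : ∀ᶠ g in 𝓝 f, N i (L ((ψ i).comp g)) < 1 := by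
            have h6 : ContinuousAt (fun g : C(K, X) => N i (L ((ψ i).comp g))) f :=
              ((hNc i).comp h2.continuous).continuousAt
            apply h6.eventually_lt continuousAt_const
            rw [h3, map_zero]
            exact one_pos
          filter_upwards [h1, h5] with g hg1 hg2
          show θ (G i g - 1) = 0
          exact θ0 _ (by rw [hg1]; linarith)
        exact contDiffAt_const.congr_of_eventuallyEq h4
      · have h4 : ContDiffAt ℝ ((⊤ : ℕ∞) : WithTop ℕ∞)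
            (fun g : C(K, X) => N i (L ((ψ i).comp g))) f :=
          (hNs i _ h3).comp f h2.contDiffAt
        have h5 : ContDiffAt ℝ ((⊤ : ℕ∞) : WithTop ℕ∞)
            (fun g : C(K, X) => θ (N i (L ((ψ i).comp g)) - 1)) f :=
          ContDiffAt.comp f θC.contDiffAt (h4.sub contDiffAt_const)
        refine h5.congr_of_eventuallyEq ?_
        filter_upwards [h1] with g hg
        show θ (G i g - 1) = _
        rw [hg]
  have hufin : ∀ f ∈ O, ∃ I : Finset (Option J), ∀ᶠ g in 𝓝 f, ∀ o ∉ I, u o g = 0 := by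
    intro f hf
    obtain ⟨ε, hε, I, hI⟩ := hgap f hf
    refine ⟨insert none (I.image some), ?_⟩
    filter_upwards [Metric.ball_mem_nhds f hε] with g hg o ho
    rw [mem_ball_iff_norm] at hg
    match o, ho with
    | none, ho => exact absurd (Finset.mem_insert_self _ _) ho
    | some i, ho =>
      have hi : i ∉ I := fun h => ho (Finset.mem_insert_of_mem (Finset.mem_image_of_mem _ h))
      have h1 : G i g = 0 := by
        apply onF_zero
        intro t
        apply hψ0 i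
        have h2 : j t = i := t.2.2
        have h3 := (hI t t.2.1).2 (by rw [h2]; exact hi)
        rw [h2] at h3
        have h4 := happ f g t
        linarith [hδ i]
      show θ (G i g - 1) = 0
      exact θ0 _ (by rw [h1]; norm_num)
  obtain ⟨H1, H2, H3⟩ := lsum u O hOconv hu0 huc hus hufin
  set Φ : C(K, X) → ℝ := fun f => ∑ᶠ o, u o f with hΦ
  have hlow : ∀ f ∈ O, Φ f ≤ 1 → ∀ o, u o f < 2 := by
    intro f hf h1 o
    have h2 := H3 f hf o
    have h3 : Φ f = ∑ᶠ k, u k f := rfl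
    linarith
  have hθlt : ∀ x, θ x < 2 → x < 1 := by
    intro x hx
    by_contra h
    push Not at h
    have := θmono h
    linarith
  have hkey : ∀ f ∈ O, Φ f ≤ 1 → p f ≤ c - κ ∧ ∀ t, t ∉ F → ‖f t‖ ≤ β (j t) + δ (j t) / 2 := by
    intro f hf h1
    constructor
    · have h2 : (p f - (c - 2 * κ)) / κ < 1 := hθlt _ (hlow f hf h1 none)
      rw [div_lt_one hκ] at h2
      linarith
    · intro t ht
      by_contra h
      push Not at h
      have h2 := hθlt _ (hlow f hf h1 (some (j t)))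
      have h3 := hGψ f hf t ht
      have h4 := hψ2 (j t) (f t) (by linarith)
      linarith
  have hneg : ∀ f, Φ (-f) = Φ f := by
    intro f
    refine finsum_congr fun o => ?_
    match o with
    | none =>
      show θ ((p (-f) - (c - 2 * κ)) / κ) = θ ((p f - (c - 2 * κ)) / κ)
      rw [map_neg_eq_map]
    | some i =>
      show θ (G i (-f) - 1) = θ (G i f - 1)
      have h1 : (fun t : D i => ψ i ((-f) t)) = fun t : D i => ψ i (f t) := by
        funext t
        exact hψneg i _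
      have h2 : G i (-f) = G i f := congrArg (onF (N i)) h1
      rw [h2]
  have hball : ∀ f : C(K, X), ‖f‖ ≤ (c - 2 * κ) / b → f ∈ O ∧ Φ f = 0 := by
    intro f hf
    rw [le_div_iff₀ hb0] at hf
    have h0 := norm_nonneg f
    have hf1 : ‖f‖ ≤ c - 2 * κ := by nlinarith
    have hpf : p f ≤ c - 2 * κ := by
      have := hpb f
      linarith
    refine ⟨⟨by linarith, fun t _ => ?_⟩, ?_⟩
    · have h1 := f.norm_coe_le_norm t
      have h2 := hB1 (j t)
      linarith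
    · have h1 : ∀ o, u o f = 0 := by
        intro o
        match o with
        | none => exact θ0 _ (div_nonpos_of_nonpos_of_nonneg (by linarith) hκ.le)
        | some i =>
          have h2 : G i f = 0 := by
            apply onF_zero
            intro t
            apply hψ0 i
            have h3 := f.norm_coe_le_norm (t : K)
            linarith [hδ i, hβ i]
          show θ (G i f - 1) = 0
          exact θ0 _ (by rw [h2]; norm_num)
      show (∑ᶠ o, u o f) = 0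
      simp only [h1, finsum_zero]
  have hr0 : 0 < (c - 2 * κ) / b := div_pos (by linarith) hb0
  refine gaugeB C(K, X) O Φ ((c - 2 * κ) / b) hr0 hO h0O H1 (fun f hf => ⟨hOneg f hf, hneg f⟩) H2
    (hball 0 (by rw [norm_zero]; exact hr0.le)).2 ?_ (fun f hf _ => hOn f hf)
    (fun f hf => ⟨(hball f hf).1, by rw [(hball f hf).2]; exact zero_le_one⟩)
  -- closedness
  apply isClosed_of_closure_subset
  intro f hf
  obtain ⟨g, hg, hgf⟩ := mem_closure_iff_seq_limit.1 hf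
  have hev : ∀ t, Tendsto (fun n => g n t) atTop (𝓝 (f t)) := fun t =>
    ((evL t).continuous.tendsto f).comp hgf
  have hpf : p f ≤ c - κ := by
    have h1 : Tendsto (fun n => p (g n)) atTop (𝓝 (p f)) := (hpc.tendsto f).comp hgf
    apply le_of_tendsto h1
    filter_upwards with n
    exact (hkey (g n) (hg n).1 (hg n).2).1
  have hfO : f ∈ O := by
    refine ⟨by linarith, ?_⟩
    intro t ht
    have h1 : ‖f t‖ ≤ β (j t) + δ (j t) / 2 := by
      apply le_of_tendsto (hev t).norm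
      filter_upwards with n
      exact (hkey (g n) (hg n).1 (hg n).2).2 t ht
    show ‖f t‖ < β (j t) + 3 * δ (j t) / 4
    linarith [hδ (j t)]
  refine ⟨hfO, ?_⟩
  have hc : ContinuousAt Φ f := (H2.contDiffAt (hO.mem_nhds hfO)).continuousAt
  have h1 : Tendsto (fun n => Φ (g n)) atTop (𝓝 (Φ f)) := hc.tendsto.comp hgf
  apply le_of_tendsto h1
  filter_upwards with n
  exact (hg n).2

theorem NormB.mono {E : Type} [NormedAddCommGroup E] [NormedSpace ℝ E] {b b' : ℝ} (h : NormB E b)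
    (hb : b ≤ b') : NormB E b' := by
  obtain ⟨N, h1, h2⟩ := h
  refine ⟨N, fun f => ⟨(h1 f).1, (h1 f).2.trans ?_⟩, h2⟩
  exact mul_le_mul_of_nonneg_right hb (norm_nonneg f)

/-- the gluing theorem, with constants -/
theorem mainQ (K X : Type) [TopologicalSpace K] [CompactSpace K] [NormedAddCommGroup X]
    [NormedSpace ℝ X] [CompleteSpace X]
    (hX : ∀ x : X, x ≠ 0 → ContDiffAt ℝ ((⊤ : ℕ∞) : WithTop ℕ∞) (fun y : X => ‖y‖) x)
    (F : Set K) [CompactSpace F] (b : ℝ) (hb : 1 ≤ b) (hF : NormB C(F, X) b) (J : Type)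
    (j : K → J) (β δ : J → ℝ) (hP : Pieces K F J j β δ) (ε : ℝ) (hε : 0 < ε) :
    NormB C(K, X) (b + ε) := by
  set e : ℝ := ε / (8 * (b + ε)) with he
  have he0 : 0 < e := by positivity
  have he1 : 8 * e * (b + ε) = ε := by
    rw [he]
    field_simp
  have he2 : e < 1 / 8 := by nlinarith
  have h := mainC K X hX F b hb hF J j (fun i => 1 - e + e / 2 * (β i - 1))
    (fun i => e / 2 * δ i) (1 - e) (e / 2) (by linarith) (by linarith) (by linarith) ?_ ?_ hP.mono
  · refine h.mono ?_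
    have h1 : 0 < 1 - 2 * e := by linarith
    have h2 : 1 - e - 2 * (e / 2) = 1 - 2 * e := by ring
    rw [h2, one_div, inv_div, div_le_iff₀ h1]
    nlinarith
  · intro i
    obtain ⟨h1, h2, h3⟩ := hP.bounds i
    refine ⟨?_, ?_, ?_⟩
    · show 1 - e ≤ 1 - e + e / 2 * (β i - 1)
      nlinarith
    · show 0 < e / 2 * δ i
      positivity
    · show 1 - e + e / 2 * (β i - 1) + e / 2 * δ i ≤ 1
      nlinarith
  · intro t ht
    filter_upwards [hP.sep t ht] with u hu h1 h2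
    have h3 := hu h1 h2
    show 1 - e + e / 2 * (β (j t) - 1) + e / 2 * δ (j t) ≤ 1 - e + e / 2 * (β (j u) - 1)
    nlinarith

end Pool.Agent.CKM
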